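import Mathlib
import Pool.Agent.Helper16.SD.GoalsS

set_option autoImplicit false

namespace Pool.Agent.Helper57.SD.A_CCJ

open Polynomial NumberField

/-- The image of an algebraic closure of a number field in `ℂ` is stable under conjugation. -/
lemma exists_conj (K : Type) [Field K] [NumberField K] (f : AlgebraicClosure K →+* ℂ)
    (x : AlgebraicClosure K) : ∃ y, f y = starRingEnd ℂ (f x) := by
  haveI : Algebra.IsAlgebraic ℚ (AlgebraicClosure K) :=
    Algebra.IsAlgebraic.trans ℚ K (AlgebraicClosure K)
  have hx : IsAlgebraic ℚ x := Algebra.IsAlgebraic.isAlgebraic x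
  obtain ⟨P, hP0, hP⟩ := hx
  have hQ0 : P.map (algebraMap ℚ (AlgebraicClosure K)) ≠ 0 := by
    rwa [Ne, Polynomial.map_eq_zero]
  have hsp : (P.map (algebraMap ℚ (AlgebraicClosure K))).Splits := IsAlgClosed.splits _
  have hr := hsp.roots_map f
  have hroot : starRingEnd ℂ (f x) ∈ ((P.map (algebraMap ℚ (AlgebraicClosure K))).map f).roots := by
    rw [mem_roots']
    refine ⟨by rwa [Ne, Polynomial.map_eq_zero], ?_⟩
    rw [IsRoot.def, Polynomial.map_map, eval_map]
    have h1 : eval₂ (algebraMap ℚ (AlgebraicClosure K)) x P = 0 := hP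
    have h2 : (((starRingEnd ℂ).comp f) (eval₂ (algebraMap ℚ (AlgebraicClosure K)) x P)) = 0 := by
      rw [h1, map_zero]
    rw [hom_eval₂] at h2
    have h3 : ((starRingEnd ℂ).comp f).comp (algebraMap ℚ (AlgebraicClosure K))
        = f.comp (algebraMap ℚ (AlgebraicClosure K)) := Subsingleton.elim _ _
    rw [h3] at h2
    exact h2
  rw [hr, Multiset.mem_map] at hroot
  obtain ⟨y, -, hy⟩ := hroot
  exact ⟨y, hy⟩

theorem t : Pool.Agent.Helper16.SD.A_CCJ := by
  intro K _ _ f
  choose c hc using exists_conj K f
  have hf : Function.Injective f := f.injective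
  have hcc : ∀ x, c (c x) = x := by
    intro x
    apply hf
    rw [hc, hc, Complex.conj_conj]
  let e : AlgebraicClosure K ≃+* AlgebraicClosure K :=
    { toFun := c
      invFun := c
      left_inv := hcc
      right_inv := hcc
      map_mul' := fun x y => hf (by rw [hc, map_mul, map_mul, map_mul, hc, hc])
      map_add' := fun x y => hf (by rw [hc, map_add, map_add, map_add, hc, hc]) }
  refine ⟨e, ?_, ?_⟩
  · apply RingEquiv.ext
    intro x
    exact hcc x
  · intro x
    exact hc x

end Pool.Agent.Helper57.SD.A_CCJ
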