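import Mathlib
import Pool.Agent.Helper38.SD.Goals

set_option autoImplicit false

namespace Pool.Agent.Helper57.SD

open Module

section
variable {k V I : Type} [Field k] [AddCommGroup V] [Module k V] [FiniteDimensional k V]
  [DecidableEq I] (l : I → V)

/-- the dimension of the span of the `l i`, `i ∈ T`. -/
noncomputable def rr (k : Type) {V I : Type} [Field k] [AddCommGroup V] [Module k V]
    (l : I → V) (T : Finset I) : ℕ := finrank k (Submodule.span k (l '' (T : Set I)))

omit [DecidableEq I] in
lemma rr_mono {T T' : Finset I} (h : T ⊆ T') : rr k l T ≤ rr k l T' :=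
  Submodule.finrank_mono (Submodule.span_mono (Set.image_mono (by exact_mod_cast h)))

lemma rr_sub (T T' : Finset I) : rr k l (T ∪ T') + rr k l (T ∩ T') ≤ rr k l T + rr k l T' := by
  have h1 : Submodule.span k (l '' ((T ∪ T' : Finset I) : Set I)) =
      Submodule.span k (l '' (T : Set I)) ⊔ Submodule.span k (l '' (T' : Set I)) := by
    rw [Finset.coe_union, Set.image_union, Submodule.span_union]
  have h2 : Submodule.span k (l '' ((T ∩ T' : Finset I) : Set I)) ≤
      Submodule.span k (l '' (T : Set I)) ⊓ Submodule.span k (l '' (T' : Set I)) := by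
    refine le_inf (Submodule.span_mono (Set.image_mono ?_)) (Submodule.span_mono (Set.image_mono ?_))
    · exact_mod_cast Finset.inter_subset_left
    · exact_mod_cast Finset.inter_subset_right
  have h3 := Submodule.finrank_sup_add_finrank_inf_eq (Submodule.span k (l '' (T : Set I)))
    (Submodule.span k (l '' (T' : Set I)))
  have h4 := Submodule.finrank_mono h2
  unfold rr
  rw [h1]
  omega

end

/-- Rado's theorem for vectors. -/
theorem m_rado : Pool.Agent.Helper38.SD.M_RADO := by
  intro k V I J _ _ _ _ _ _ _ _ l A
  obtain ⟨n, hn⟩ : ∃ n, n = ∑ j, (A j).card := ⟨_, rfl⟩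
  induction n using Nat.strong_induction_on generalizing A with
  | _ n ih =>
  intro hA
  have hA' : ∀ Q : Finset J, Q.card ≤ rr k l (Q.biUnion A) := hA
  have hne : ∀ j, (A j).Nonempty := by
    intro j
    rw [Finset.nonempty_iff_ne_empty]
    intro h0
    have h := hA {j}
    rw [Finset.singleton_biUnion, h0, Finset.coe_empty, Set.image_empty, Submodule.span_empty,
      finrank_bot, Finset.card_singleton] at h
    omega
  by_cases hc : ∀ j, (A j).card ≤ 1
  · have hc1 : ∀ j, ∃ i, A j = {i} := fun j =>
      Finset.card_eq_one.1 (le_antisymm (hc j) (hne j).card_pos)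
    choose f hf using hc1
    refine ⟨f, fun j => by rw [hf]; exact Finset.mem_singleton_self _, ?_⟩
    rw [linearIndependent_iff_card_le_finrank_span]
    have h := hA Finset.univ
    have h1 : (l '' ((Finset.univ.biUnion A : Finset I) : Set I)) =
        Set.range fun j => l (f j) := by
      ext v
      simp only [Finset.coe_biUnion, Set.mem_image, Set.mem_iUnion, Set.mem_range, hf,
        Finset.coe_singleton, Set.mem_singleton_iff, Finset.coe_univ, Set.mem_univ, exists_prop,
        true_and]
      constructor
      · rintro ⟨i, ⟨j, rfl⟩, rfl⟩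
        exact ⟨j, rfl⟩
      · rintro ⟨j, rfl⟩
        exact ⟨f j, ⟨j, rfl⟩, rfl⟩
    rw [h1] at h
    exact h
  · push Not at hc
    obtain ⟨j₀, hj₀⟩ := hc
    obtain ⟨x, hx, y, hy, hxy⟩ := Finset.one_lt_card.1 hj₀
    -- removing one element
    have step : ∀ z ∈ A j₀, (∀ Q : Finset J,
        Q.card ≤ rr k l (Q.biUnion (Function.update A j₀ ((A j₀).erase z)))) →
        ∃ f : J → I, (∀ j, f j ∈ A j) ∧ LinearIndependent k (fun j ↦ l (f j)) := by
      intro z hz hQ
      have hlt : ∑ j, (Function.update A j₀ ((A j₀).erase z) j).card < n := by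
        rw [hn]
        refine Finset.sum_lt_sum (fun j _ => ?_) ⟨j₀, Finset.mem_univ _, ?_⟩
        · by_cases hj : j = j₀
          · subst hj
            rw [Function.update_self]
            exact Finset.card_le_card (Finset.erase_subset _ _)
          · rw [Function.update_of_ne hj]
        · rw [Function.update_self]
          exact Finset.card_erase_lt_of_mem hz
      obtain ⟨f, hf1, hf2⟩ := ih _ hlt _ rfl hQ
      refine ⟨f, fun j => ?_, hf2⟩
      have h := hf1 j
      by_cases hj : j = j₀
      · subst hj
        rw [Function.update_self] at h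
        exact Finset.mem_of_mem_erase h
      · rwa [Function.update_of_ne hj] at h
    by_contra hno
    have hex : ∀ z ∈ A j₀, ∃ Q : Finset J, j₀ ∈ Q ∧
        rr k l (Q.biUnion (Function.update A j₀ ((A j₀).erase z))) ≤ (Q.erase j₀).card := by
      intro z hz
      by_contra hcon
      apply hno
      refine step z hz fun Q => ?_
      by_contra hlt
      push Not at hlt
      have hj : j₀ ∈ Q := by
        by_contra hj
        have h1 : Q.biUnion (Function.update A j₀ ((A j₀).erase z)) = Q.biUnion A := by
          refine Finset.biUnion_congr rfl fun j hjQ => ?_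
          rw [Function.update_of_ne]
          rintro rfl
          exact hj hjQ
        rw [h1] at hlt
        exact absurd (hA' Q) (not_le.2 hlt)
      apply hcon
      refine ⟨Q, hj, ?_⟩
      have h2 := Finset.card_erase_add_one hj
      omega
    obtain ⟨Q, hjQ, hQ⟩ := hex x hx
    obtain ⟨R, hjR, hR⟩ := hex y hy
    have h1 : (insert j₀ (Q.erase j₀ ∪ R.erase j₀)).biUnion A ⊆
        Q.biUnion (Function.update A j₀ ((A j₀).erase x)) ∪
          R.biUnion (Function.update A j₀ ((A j₀).erase y)) := by
      intro i hi
      obtain ⟨j, hj, hij⟩ := Finset.mem_biUnion.1 hi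
      rw [Finset.mem_union, Finset.mem_biUnion, Finset.mem_biUnion]
      rcases Finset.mem_insert.1 hj with rfl | hj
      · by_cases hix : i = x
        · right
          refine ⟨j, hjR, ?_⟩
          rw [Function.update_self, Finset.mem_erase]
          exact ⟨fun h => hxy (hix ▸ h), hij⟩
        · left
          refine ⟨j, hjQ, ?_⟩
          rw [Function.update_self, Finset.mem_erase]
          exact ⟨hix, hij⟩
      · rcases Finset.mem_union.1 hj with hj | hj
        · left
          refine ⟨j, Finset.mem_of_mem_erase hj, ?_⟩
          rwa [Function.update_of_ne (Finset.ne_of_mem_erase hj)]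
        · right
          refine ⟨j, Finset.mem_of_mem_erase hj, ?_⟩
          rwa [Function.update_of_ne (Finset.ne_of_mem_erase hj)]
    have h2 : (Q.erase j₀ ∩ R.erase j₀).biUnion A ⊆
        Q.biUnion (Function.update A j₀ ((A j₀).erase x)) ∩
          R.biUnion (Function.update A j₀ ((A j₀).erase y)) := by
      intro i hi
      obtain ⟨j, hj, hij⟩ := Finset.mem_biUnion.1 hi
      obtain ⟨hj1, hj2⟩ := Finset.mem_inter.1 hj
      rw [Finset.mem_inter, Finset.mem_biUnion, Finset.mem_biUnion]
      constructor
      · refine ⟨j, Finset.mem_of_mem_erase hj1, ?_⟩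
        rwa [Function.update_of_ne (Finset.ne_of_mem_erase hj1)]
      · refine ⟨j, Finset.mem_of_mem_erase hj2, ?_⟩
        rwa [Function.update_of_ne (Finset.ne_of_mem_erase hj1)]
    have h3 := rr_sub (k := k) l (Q.biUnion (Function.update A j₀ ((A j₀).erase x)))
      (R.biUnion (Function.update A j₀ ((A j₀).erase y)))
    have h4 := (hA' _).trans (rr_mono (k := k) l h1)
    have h5 := (hA' _).trans (rr_mono (k := k) l h2)
    have h6 : (insert j₀ (Q.erase j₀ ∪ R.erase j₀)).card = (Q.erase j₀ ∪ R.erase j₀).card + 1 := by
      apply Finset.card_insert_of_notMem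
      simp
    have h7 := Finset.card_union_add_card_inter (Q.erase j₀) (R.erase j₀)
    omega

end Pool.Agent.Helper57.SD
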